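import Pool.Agent.W207.PR.Stmts

/-! PR-UB: uniform bound for the pair counts. -/

open Complex Filter Topology Set MeasureTheory
open scoped BigOperators

namespace Pool.Agent.W596.PR

open W207.PR

theorem mz_nonneg (s : ℂ) : 0 ≤ H343.ZSide.mz s := Nat.cast_nonneg _

theorem N2_mono (T : ℝ) {w w' : ℝ} (h : w ≤ w') : H332B.N2 T w ≤ H332B.N2 T w' := by
  unfold H332B.N2
  refine Finset.sum_le_sum fun s _ => Finset.sum_le_sum fun s' _ => ?_
  have h0 : 0 ≤ H343.ZSide.mz s * H343.ZSide.mz s' := mul_nonneg (mz_nonneg s) (mz_nonneg s')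
  by_cases h1 : |s.im - s'.im| ≤ w
  · rw [if_pos h1, if_pos (h1.trans h)]
  · rw [if_neg h1]
    split_ifs
    · exact h0
    · exact le_rfl

theorem ub : S_UB := by
  intro hRH hcell
  obtain ⟨T0, hT0, h⟩ := W201FW.upN hRH (β := 1) one_pos (ε := 1) one_pos
  refine ⟨15, max T0 10, by norm_num, le_max_right _ _, fun T hT u hu => ?_⟩
  have hT1 : T0 ≤ T := (le_max_left _ _).trans hT
  have hT10 : 10 ≤ T := (le_max_right _ _).trans hT
  have hpi := Real.pi_pos
  have hL : 0 < Real.log T := Real.log_pos (by linarith)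
  have hX : 0 < W207.PR.X T := by
    unfold W207.PR.X
    have : 0 < T := by linarith
    positivity
  have hδ : 0 < 2 * Real.pi / Real.log T := by positivity
  have hk : u ≤ (⌈u⌉₊ : ℝ) := Nat.le_ceil u
  have hk2 : (⌈u⌉₊ : ℝ) < u + 1 := Nat.ceil_lt_add_one hu
  have h1 : H332B.N2 T (2 * Real.pi * u / Real.log T) ≤
      H332B.N2 T ((⌈u⌉₊ : ℕ) * (2 * Real.pi / Real.log T)) := by
    apply N2_mono
    have : (⌈u⌉₊ : ℝ) * (2 * Real.pi / Real.log T) = 2 * Real.pi * (⌈u⌉₊ : ℝ) / Real.log T := by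
      ring
    rw [this]
    gcongr
  have h2 : H332B.N2 T ((⌈u⌉₊ : ℕ) * (2 * Real.pi / Real.log T)) ≤
      (2 * (⌈u⌉₊ : ℕ) + 1) * H332B.N2 T (2 * Real.pi / Real.log T) := by
    have := hcell (H343.ZSide.Z0 T) H343.ZSide.mz Complex.im mz_nonneg _ hδ ⌈u⌉₊
    unfold H332B.N2
    convert this
  have h3 : H332B.N2 T (2 * Real.pi / Real.log T) ≤ 5 * W207.PR.X T := by
    have := h T hT1
    rw [mul_one] at this
    refine this.trans ?_
    unfold W207.PR.X at hX ⊢
    nlinarith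
  unfold P
  rw [div_le_iff₀ hX]
  refine h1.trans (h2.trans ?_)
  have h4 : (2 * ((⌈u⌉₊ : ℕ) : ℝ) + 1) * H332B.N2 T (2 * Real.pi / Real.log T) ≤
      (2 * ((⌈u⌉₊ : ℕ) : ℝ) + 1) * (5 * W207.PR.X T) := by
    apply mul_le_mul_of_nonneg_left h3
    positivity
  refine h4.trans ?_
  nlinarith

end Pool.Agent.W596.PR
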